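import Mathlib

/-!
# Dimensions of the corners of a semisimple algebra
-/

set_option linter.unusedSectionVars false
set_option linter.unusedVariables false
set_option autoImplicit false

namespace Pool.Agent.K4H26.ZO

open Module

section endo

variable {k V : Type*} [Field k] [AddCommGroup V] [Module k V] [FiniteDimensional k V]

/-- The endomorphisms which factor through the images of two given ones. -/
def fac (E F : V →ₗ[k] V) : (LinearMap.range F →ₗ[k] LinearMap.range E) →ₗ[k] (V →ₗ[k] V) where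
  toFun φ := (LinearMap.range E).subtype ∘ₗ φ ∘ₗ F.rangeRestrict
  map_add' φ ψ := by
    ext x
    simp
  map_smul' c φ := by
    ext x
    simp

theorem fac_injective (E F : V →ₗ[k] V) : Function.Injective (fac E F) := by
  intro φ ψ h
  apply LinearMap.ext
  rintro ⟨_, x, rfl⟩
  have h1 := LinearMap.congr_fun h x
  exact Subtype.ext h1

theorem range_fac (E F : V →ₗ[k] V) (hE : E ∘ₗ E = E) (hF : F ∘ₗ F = F) :
    LinearMap.range (fac E F) =
      {N : V →ₗ[k] V | ∃ M : V →ₗ[k] V, E ∘ₗ M ∘ₗ F = N} := by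
  ext N
  constructor
  · rintro ⟨φ, rfl⟩
    refine ⟨fac E F φ, ?_⟩
    ext x
    change E ((φ (F.rangeRestrict (F x)) : LinearMap.range E) : V) = (φ (F.rangeRestrict x) : V)
    have h1 : F.rangeRestrict (F x) = F.rangeRestrict x := Subtype.ext (LinearMap.congr_fun hF x)
    rw [h1]
    obtain ⟨y, hy⟩ := (φ (F.rangeRestrict x)).2
    rw [← hy]
    exact LinearMap.congr_fun hE y
  · rintro ⟨M, rfl⟩
    refine ⟨E.rangeRestrict ∘ₗ M ∘ₗ (LinearMap.range F).subtype, ?_⟩
    ext x
    rfl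

end endo

section pi

variable {k : Type*} [Field k] {X : Type*} [Fintype X] {d : X → ℕ}

/-- The product of the algebras of matrices. -/
abbrev PM (k : Type*) [Field k] {X : Type*} (d : X → ℕ) : Type _ :=
  ∀ x, Matrix (Fin (d x)) (Fin (d x)) k

/-- The rank of a component. -/
noncomputable def rk (e : PM k d) (x : X) : ℕ :=
  finrank k (LinearMap.range (Matrix.toLin' (e x)))

theorem finrank_corner (e f : PM k d) (he : e * e = e) (hf : f * f = f) :
    finrank k (LinearMap.range ((LinearMap.mulLeft k e).comp (LinearMap.mulRight k f))) =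
      ∑ x, rk e x * rk f x := by
  classical
  have he' : ∀ x, Matrix.toLin' (e x) ∘ₗ Matrix.toLin' (e x) = Matrix.toLin' (e x) := fun x => by
    rw [← Matrix.toLin'_mul]
    exact congrArg _ (congrFun he x)
  have hf' : ∀ x, Matrix.toLin' (f x) ∘ₗ Matrix.toLin' (f x) = Matrix.toLin' (f x) := fun x => by
    rw [← Matrix.toLin'_mul]
    exact congrArg _ (congrFun hf x)
  let L : (∀ x, (LinearMap.range (Matrix.toLin' (f x)) →ₗ[k] LinearMap.range (Matrix.toLin' (e x))))
      →ₗ[k] PM k d :=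
    LinearMap.pi fun x => (LinearMap.toMatrix' : _ ≃ₗ[k] Matrix (Fin (d x)) (Fin (d x)) k).toLinearMap ∘ₗ
      (fac (Matrix.toLin' (e x)) (Matrix.toLin' (f x))) ∘ₗ LinearMap.proj x
  have hL : ∀ φ x, L φ x = LinearMap.toMatrix' (fac (Matrix.toLin' (e x)) (Matrix.toLin' (f x)) (φ x)) :=
    fun φ x => rfl
  have hinj : Function.Injective L := by
    intro φ ψ h
    funext x
    apply fac_injective
    apply LinearMap.toMatrix'.injective
    rw [← hL, ← hL, h]
  have hrange : LinearMap.range L =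
      LinearMap.range ((LinearMap.mulLeft k e).comp (LinearMap.mulRight k f)) := by
    ext N
    have key : ∀ x, (∃ φ, LinearMap.toMatrix'
        (fac (Matrix.toLin' (e x)) (Matrix.toLin' (f x)) φ) = N x) ↔
        ∃ M : Matrix (Fin (d x)) (Fin (d x)) k, e x * (M * f x) = N x := by
      intro x
      have h1 := Set.ext_iff.1 (range_fac _ _ (he' x) (hf' x)) (Matrix.toLin' (N x))
      constructor
      · rintro ⟨φ, hφ⟩
        obtain ⟨M, hM⟩ := h1.1 ⟨φ, by rw [← hφ, Matrix.toLin'_toMatrix']⟩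
        refine ⟨LinearMap.toMatrix' M, ?_⟩
        apply Matrix.toLin'.injective
        rw [Matrix.toLin'_mul, Matrix.toLin'_mul, Matrix.toLin'_toMatrix', hM]
      · rintro ⟨M, hM⟩
        obtain ⟨φ, hφ⟩ := h1.2 ⟨Matrix.toLin' M, by
          rw [← hM, Matrix.toLin'_mul, Matrix.toLin'_mul]⟩
        exact ⟨φ, by rw [hφ, LinearMap.toMatrix'_toLin']⟩
    constructor
    · rintro ⟨φ, rfl⟩
      choose M hM using fun x => (key x).1 ⟨φ x, (hL φ x).symm⟩
      exact ⟨M, funext hM⟩
    · rintro ⟨M, rfl⟩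
      choose φ hφ using fun x => (key x).2 ⟨M x, rfl⟩
      exact ⟨φ, funext fun x => (hL φ x).trans (hφ x)⟩
  rw [← hrange, LinearMap.finrank_range_of_inj hinj, finrank_pi_fintype]
  refine Finset.sum_congr rfl fun x _ => ?_
  rw [finrank_linearMap, mul_comm]
  rfl

end pi

theorem exists_ranks {k A : Type} [Field k] [IsAlgClosed k] [Ring A] [Algebra k A]
    [FiniteDimensional k A] [IsSemisimpleRing A] :
    ∃ (X : Type) (_ : Fintype X) (ρ : A → X → ℕ), ∀ e f : A, e * e = e → f * f = f →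
      Module.finrank k (LinearMap.range ((LinearMap.mulLeft k e).comp (LinearMap.mulRight k f))) =
        ∑ x, ρ e x * ρ f x := by
  obtain ⟨n, d, -, ⟨Φ⟩⟩ := IsSemisimpleRing.exists_algEquiv_pi_matrix_of_isAlgClosed k A
  refine ⟨Fin n, inferInstance, fun e x => rk (Φ e) x, fun e f he hf => ?_⟩
  rw [← finrank_corner (Φ e) (Φ f) (by rw [← map_mul, he]) (by rw [← map_mul, hf])]
  have h1 : LinearMap.range ((LinearMap.mulLeft k (Φ e)).comp (LinearMap.mulRight k (Φ f))) =
      (LinearMap.range ((LinearMap.mulLeft k e).comp (LinearMap.mulRight k f))).map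
        (Φ.toLinearEquiv : A →ₗ[k] _) := by
    ext N
    constructor
    · rintro ⟨M, rfl⟩
      refine ⟨e * (Φ.symm M * f), ⟨Φ.symm M, rfl⟩, ?_⟩
      change Φ (e * (Φ.symm M * f)) = Φ e * (M * Φ f)
      rw [map_mul, map_mul, AlgEquiv.apply_symm_apply]
    · rintro ⟨_, ⟨M, rfl⟩, rfl⟩
      refine ⟨Φ M, ?_⟩
      change Φ e * (Φ M * Φ f) = Φ (e * (M * f))
      rw [map_mul, map_mul]
  rw [h1]
  exact (LinearEquiv.finrank_map_eq Φ.toLinearEquiv _).symm

theorem gram_nonneg {k A : Type} [Field k] [IsAlgClosed k] [Ring A] [Algebra k A]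
    [FiniteDimensional k A] [IsSemisimpleRing A] (n : ℕ) (e : Fin n → A)
    (he : ∀ i, e i * e i = e i) (c : Fin n → ℝ) :
    0 ≤ ∑ i, ∑ j, c i * c j * (Module.finrank k
      (LinearMap.range ((LinearMap.mulLeft k (e i)).comp (LinearMap.mulRight k (e j)))) : ℝ) := by
  obtain ⟨X, _, ρ, hρ⟩ := exists_ranks (k := k) (A := A)
  have h1 : ∑ i, ∑ j, c i * c j * (Module.finrank k
      (LinearMap.range ((LinearMap.mulLeft k (e i)).comp (LinearMap.mulRight k (e j)))) : ℝ) =
      ∑ x, (∑ i, c i * (ρ (e i) x : ℝ)) ^ 2 := by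
    have h2 : ∀ x, (∑ i, c i * (ρ (e i) x : ℝ)) ^ 2 =
        ∑ i, ∑ j, (c i * (ρ (e i) x : ℝ)) * (c j * (ρ (e j) x : ℝ)) := by
      intro x
      rw [pow_two, Finset.sum_mul_sum]
    have h3 : ∑ x, ∑ i, ∑ j, (c i * (ρ (e i) x : ℝ)) * (c j * (ρ (e j) x : ℝ)) =
        ∑ i, ∑ j, ∑ x, (c i * (ρ (e i) x : ℝ)) * (c j * (ρ (e j) x : ℝ)) := by
      rw [Finset.sum_comm]
      exact Finset.sum_congr rfl fun i _ => Finset.sum_comm
    rw [Finset.sum_congr rfl fun x _ => h2 x, h3]
    refine Finset.sum_congr rfl fun i _ => Finset.sum_congr rfl fun j _ => ?_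
    rw [hρ _ _ (he i) (he j), Nat.cast_sum, Finset.mul_sum]
    refine Finset.sum_congr rfl fun x _ => ?_
    push_cast
    ring
  rw [h1]
  exact Finset.sum_nonneg fun x _ => sq_nonneg _

theorem isSemisimpleRing_of_trace {k A : Type} [Field k] [IsAlgClosed k] [CharZero k] [Ring A]
    [Algebra k A] [FiniteDimensional k A] (τ : A →ₗ[k] k)
    (h1 : ∀ x : A, (∀ y, IsNilpotent (x * y)) → ∀ y, τ (x * y) = 0)
    (h2 : ∀ x : A, (∀ y, τ (x * y) = 0) → x = 0) : IsSemisimpleRing A := by
  have hart : IsArtinianRing A := IsArtinianRing.of_finite k A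
  have hJ : Ring.jacobson A = ⊥ := by
    rw [eq_bot_iff]
    intro x hx
    apply h2
    apply h1
    intro y
    obtain ⟨m, hm⟩ := IsSemiprimaryRing.isNilpotent (R := A)
    have hxy : x * y ∈ Ring.jacobson A := Ideal.mul_mem_right y _ hx
    refine ⟨m, ?_⟩
    have h3 := Ideal.pow_mem_pow hxy m
    rw [hm] at h3
    exact h3
  exact IsArtinianRing.isSemisimpleRing_iff_jacobson.2 hJ

end Pool.Agent.K4H26.ZO
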